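import Pool.Agent.H38.GR.Fin

/-!
# A linear group whose set of growth rates is not well-ordered

The group `G` is the wreath product of `(ℤ/2)^5` and `ℤ`, embedded in `GL₂` of the field of Laurent
series over the field with `32` elements.  For every `l ≥ 1` it has a generating set `S_l` of at most
`34` elements: the letters `(g_l(m), 1)`, for `32` finitely supported configurations `g_l(m)`
which live on the sites `-1, 0, l`, and two lamps.  The growth rate `e(G, S_l)` is larger than
a number `α` (about `23.7`) for every `l` and tends to `α` for `l → ∞`.

Proof idea.  The elements of `G` which count are those with `f` supported in the interval from `0` to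
the position; the site `j` carries three marks `a, b, c` and two bits.  Each bit belongs to an
edge, from `j` to `j + 1` or from `j` to `j - l`, and it costs one lamp unless one of the two ends of
the edge pays for it, which depends on the marks.  The marks `c` cut the graph of all these
edges into wires; the generating function of the lengths is a product over the wires of traces or of
boundary terms of powers of a two by two matrix with positive eigenvalues.  The infinite wires
do not know `l`.  The wires which are cycles have length at least `l + 1` and increase the generating
function; they have positive density for every `l`, but their contribution tends to zero for `l → ∞`.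
-/

namespace Pool.Agent.Results.MP_646035_al.LinearNotWellOrdered

open Pool.Agent.H38.GR

theorem result : ∃ (K : Type) (_ : Field K) (G : Subgroup (GL (Fin 2) K)) (S : ℕ → Finset G)
    (r : ℕ → ℝ),
    (∀ n, Subgroup.closure (S n : Set G) = ⊤ ∧ (S n).card ≤ 34 ∧ IsGrowthRate (S n) (r n) ∧
      8 ≤ r n) ∧
    StrictAnti r ∧ ¬ IsWellOrderedSet (growthRates G) := by
  obtain ⟨l, r, h, hr⟩ := exists_seq
  let e : Lamp ≃* rep.range := MonoidHom.ofInjective rep_inj
  refine ⟨KK, inferInstance, rep.range, fun n => (gen (l n)).map e.toEquiv.toEmbedding, r,
    fun n => ⟨?_, ?_, ?_, ?_⟩, hr, ?_⟩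
  · exact closure_map e _ (closure_gen (l n))
  · rw [Finset.card_map]; exact card_gen _
  · exact isGrowthRate_map e _ (h n).2
  · exact rate_ge_eight (l n) (h n).1 (h n).2
  · intro hwo
    obtain ⟨m, ⟨n, rfl⟩, hm⟩ := hwo (Set.range r) (by
      rintro _ ⟨n, rfl⟩
      exact ⟨_, closure_map e _ (closure_gen (l n)), isGrowthRate_map e _ (h n).2⟩)
      ⟨r 0, 0, rfl⟩
    have h1 := hm ⟨n + 1, rfl⟩
    exact absurd (hr (Nat.lt_succ_self n)) (not_lt.2 h1)

end Pool.Agent.Results.MP_646035_al.LinearNotWellOrdered
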